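import Pool.Agent.Y494.PS.FinsB

/-!
# PS-FINS: finiteness of the `ℓ`-torsion
-/

set_option autoImplicit false
set_option linter.all false

open Polynomial FF

namespace Pool.Agent.Y494.PS

open Pool.Agent.Y157.PS

theorem RatF.up {κ R N : Type} [Field κ] [Field R] [Field N] [Algebra κ R] [Algebra κ N]
    [Algebra R N] [IsScalarTower κ R N] {x : R} (hx : RatF κ x)
    (h1 : Module.finrank R N = 1) : RatF κ (algebraMap R N x) := by
  refine ⟨(transcendental_algebraMap_iff (algebraMap R N).injective).2 hx.trans, ?_⟩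
  have h2 : (IntermediateField.adjoin κ {x}).map (IsScalarTower.toAlgHom κ R N) =
      IntermediateField.adjoin κ {algebraMap R N x} := by
    rw [IntermediateField.adjoin_map, Set.image_singleton]; rfl
  rw [← h2, hx.gen, eq_top_iff]
  intro z _
  have h3 : z ∈ (⊤ : IntermediateField R N) := trivial
  rw [← IntermediateField.bot_eq_top_iff_finrank_eq_one.2 h1, IntermediateField.mem_bot] at h3
  obtain ⟨r, rfl⟩ := h3
  exact ⟨r, trivial, rfl⟩

theorem finA_all {κ R : Type} [Field κ] [IsAlgClosed κ] [CharZero κ] [Field R] [Algebra κ R]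
    {x : R} (hx : RatF κ x) {ℓ : ℕ} (hp : ℓ.Prime) :
    ∀ (m : ℕ) (N : Type) [Field N] [Algebra κ N] [Algebra R N] [IsScalarTower κ R N]
      [FiniteDimensional R N] [IsGalois R N], Module.finrank R N = ℓ ^ m →
      ∀ T : Set (Place κ N), T.Finite → FinA ℓ κ T := by
  intro m
  induction m with
  | zero =>
    intro N _ _ _ _ _ _ hm T hT
    haveI : IsFF κ N := hx.isFF
    rw [pow_zero] at hm
    exact finA_base (RatF.up hx hm) hp.pos T hT
  | succ m ih =>
    intro N _ _ _ _ _ _ hm T hT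
    haveI : Fact ℓ.Prime := ⟨hp⟩
    haveI : IsFF κ N := hx.isFF
    have hcard : Nat.card (N ≃ₐ[R] N) = ℓ ^ (m + 1) := by rw [IsGalois.card_aut_eq_finrank, hm]
    have hpg : IsPGroup ℓ (N ≃ₐ[R] N) := IsPGroup.of_card hcard
    haveI : Finite (N ≃ₐ[R] N) := Nat.finite_of_card_ne_zero (by
      rw [hcard]; exact pow_ne_zero _ hp.ne_zero)
    haveI : Nontrivial (N ≃ₐ[R] N) := by
      rw [← Finite.one_lt_card_iff_nontrivial, hcard]
      exact Nat.one_lt_pow (Nat.succ_ne_zero m) hp.one_lt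
    haveI := hpg.center_nontrivial
    have hdvd : ℓ ∣ Nat.card (Subgroup.center (N ≃ₐ[R] N)) := by
      obtain ⟨n, hn⟩ := IsPGroup.iff_card.1 (hpg.to_subgroup (Subgroup.center (N ≃ₐ[R] N)))
      rw [hn]
      rcases Nat.eq_zero_or_pos n with h0 | h0
      · subst h0
        rw [pow_zero] at hn
        have := Finite.one_lt_card_iff_nontrivial.2
          (inferInstance : Nontrivial (Subgroup.center (N ≃ₐ[R] N)))
        omega
      · exact dvd_pow_self ℓ h0.ne'
    obtain ⟨c, hc⟩ := exists_prime_orderOf_dvd_card' ℓ hdvd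
    set H : Subgroup (N ≃ₐ[R] N) := Subgroup.zpowers (c : N ≃ₐ[R] N) with hH
    haveI : H.Normal := by
      constructor
      rintro _ ⟨n, rfl⟩ g
      have h1 : (c : N ≃ₐ[R] N) ^ n ∈ Subgroup.center (N ≃ₐ[R] N) := Subgroup.zpow_mem _ c.2 n
      have h2 := Subgroup.mem_center_iff.1 h1 g
      show g * (c : N ≃ₐ[R] N) ^ n * g⁻¹ ∈ H
      rw [h2, mul_inv_cancel_right]
      exact ⟨n, rfl⟩
    have hHcard : Nat.card H = ℓ := by
      rw [hH, Nat.card_zpowers, Subgroup.orderOf_coe, hc]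
    set N₀ : IntermediateField R N := IntermediateField.fixedField H with hN₀
    have hn : Module.finrank N₀ N = ℓ := by
      rw [hN₀, IntermediateField.finrank_fixedField_eq_card, hHcard]
    haveI : IsGalois R N₀ := IsGalois.of_fixedField_normal_subgroup H
    have hm₀ : Module.finrank R N₀ = ℓ ^ m := by
      have h1 := Module.finrank_mul_finrank R N₀ N
      rw [hn, hm, pow_succ] at h1
      exact Nat.eq_of_mul_eq_mul_right hp.pos h1
    haveI : IsFF κ N₀ := hx.isFF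
    haveI : IsScalarTower κ N₀ N := IsScalarTower.of_algebraMap_eq fun c => rfl
    exact finA_step hp hn (fun T₀ hT₀ => ih N₀ hm₀ T₀ hT₀) T hT

/-- **finiteness of the `ℓ`-torsion** -/
theorem fins : S_RES → S_FINS := by
  classical
  intro hres ℓ _ κ R M _ _ _ _ _ _ _ _ _ x B Y hcov N hN hY
  have hp : ℓ.Prime := Fact.out
  haveI := hN.fin
  haveI := hN.gal
  obtain ⟨m, hm⟩ := hN.card
  have hfin := finA_all hcov.rat hp m N hm ∅ Set.finite_empty
  obtain ⟨-, hplace, -⟩ := hres ℓ κ R M x B Y hcov N hN.fin hY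
  unfold FinA at hfin
  haveI : NeZero (ℓ : κ) := ⟨by exact_mod_cast hp.ne_zero⟩
  obtain ⟨ζ, hζ⟩ := HasEnoughRootsOfUnity.exists_primitiveRoot κ ℓ
  have hζM : IsPrimitiveRoot (algebraMap κ M ζ) ℓ := hζ.map_of_injective (algebraMap κ M).injective
  let u : M → Nˣ := fun h => if hh : h ≠ 0 ∧ h ^ ℓ ∈ N then
    Units.mk0 (⟨h ^ ℓ, hh.2⟩ : N) (fun h0 => pow_ne_zero ℓ hh.1 (congrArg Subtype.val h0)) else 1
  have hu : ∀ h : M, h ≠ 0 ∧ h ^ ℓ ∈ N → (((u h : N) : M) = h ^ ℓ) := by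
    intro h hh
    have e : u h = Units.mk0 (⟨h ^ ℓ, hh.2⟩ : N)
      (fun h0 => pow_ne_zero ℓ hh.1 (congrArg Subtype.val h0)) := dif_pos hh
    rw [e]
    rfl
  refine ⟨hfin.toFinset.card, fun T hT hcard => ?_⟩
  obtain ⟨h, hh, h', hh', hne, heq⟩ := Finset.exists_ne_map_eq_of_card_lt_of_maps_to hcard
    (f := fun h => qq ℓ N (u h)) (by
      intro h hh
      show qq ℓ N (u h) ∈ (hfin.toFinset : Set (QQ ℓ N))
      rw [Set.Finite.coe_toFinset]
      refine ⟨u h, ?_, rfl⟩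
      intro w _
      obtain ⟨W, hW⟩ := hplace w
      rw [← hW, hu h (hT h hh), W.ord_pow]
      exact dvd_mul_right _ _)
  refine ⟨h, hh, h', hh', hne, ?_⟩
  obtain ⟨s, hs⟩ := qq_eq_iff.1 heq
  have e1 : h' ^ ℓ = h ^ ℓ * ((s : N) : M) ^ ℓ := by
    rw [← hu h (hT h hh), ← hu h' (hT h' hh'), hs]
    rfl
  have hs0 : ((s : N) : M) ≠ 0 := fun h0 => s.ne_zero (Subtype.ext h0)
  have h0 := (hT h hh).1
  have h0' := (hT h' hh').1
  have e2 : (h' / (h * ((s : N) : M))) ^ ℓ = 1 := by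
    rw [div_pow, e1, mul_pow, div_self]
    exact mul_ne_zero (pow_ne_zero _ h0) (pow_ne_zero _ hs0)
  obtain ⟨i, -, hi⟩ := hζM.eq_pow_of_pow_eq_one e2
  have e3 : h / h' = ((algebraMap κ M ζ) ^ i * ((s : N) : M))⁻¹ := by
    rw [hi]
    field_simp
  rw [e3]
  refine N.toSubfield.inv_mem (N.toSubfield.mul_mem (N.toSubfield.pow_mem ?_ i) (s : N).2)
  rw [IsScalarTower.algebraMap_apply κ R M]
  exact N.algebraMap_mem _

end Pool.Agent.Y494.PS
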