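import Pool.Agent.Y157.PS.Stm
import Pool.Agent.Helper386.D5V.Helper399_FF4

/-!
# PS-FINS: finiteness of the `ℓ`-torsion, group theory and the base of the induction
-/

set_option autoImplicit false
set_option linter.all false

open Polynomial FF

namespace Pool.Agent.Y494.PS

open Pool.Agent.Y157.PS

/-! ### Group theory -/

theorem nilp {Q : Type} [CommGroup Q] (ℓ : ℕ) (hp : ℓ.Prime) (hQ : ∀ x : Q, x ^ ℓ = 1)
    (γ : Q →* Q) (hγ : ∀ x, γ^[ℓ] x = x) (D : Q →* Q) (hD : ∀ x, D x = γ x / x) (x : Q) :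
    D^[ℓ] x = 1 := by
  let s : AddMonoid.End (Additive Q) := MonoidHom.toAdditive γ
  let d : AddMonoid.End (Additive Q) := MonoidHom.toAdditive D
  have hd : d = s + (-1) := by
    refine AddMonoidHom.ext fun y => ?_
    show Additive.ofMul (D y.toMul) = Additive.ofMul (γ y.toMul) + -y
    rw [hD, div_eq_mul_inv]
    rfl
  obtain ⟨r, hr⟩ := Commute.exists_add_pow_prime_eq hp (Commute.neg_one_right s)
  rw [← hd] at hr
  have hℓ : ∀ y : Additive Q, (ℓ : AddMonoid.End (Additive Q)) y = 0 := by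
    intro y
    have h1 : (ℓ : AddMonoid.End (Additive Q)) y = ℓ • y := by
      rw [← nsmul_one]
      rfl
    rw [h1]
    exact congrArg Additive.ofMul (hQ y.toMul)
  have h2 : (d ^ ℓ) (Additive.ofMul x) = 0 := by
    rw [hr]
    show (s ^ ℓ) (Additive.ofMul x) + ((-1 : AddMonoid.End (Additive Q)) ^ ℓ) (Additive.ofMul x) +
      ((ℓ : AddMonoid.End (Additive Q)) * s * -1 * r) (Additive.ofMul x) = 0
    have h3 : ((ℓ : AddMonoid.End (Additive Q)) * s * -1 * r) (Additive.ofMul x) = 0 := hℓ _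
    rw [h3, add_zero, AddMonoid.End.coe_pow]
    have h4 : (s^[ℓ]) (Additive.ofMul x) = Additive.ofMul x := congrArg Additive.ofMul (hγ x)
    rw [h4]
    rcases hp.eq_two_or_odd' with h5 | h5
    · subst h5
      have h6 := neg_one_sq (R := AddMonoid.End (Additive Q))
      have h8 : ((-1 : AddMonoid.End (Additive Q)) ^ 2) (Additive.ofMul x) = Additive.ofMul x :=
        congrArg (fun e : AddMonoid.End (Additive Q) => e (Additive.ofMul x)) h6
      rw [h8]
      have := congrArg Additive.ofMul (hQ x)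
      rw [pow_two] at this
      exact this
    · have h6 := Odd.neg_one_pow (α := AddMonoid.End (Additive Q)) h5
      have h8 : ((-1 : AddMonoid.End (Additive Q)) ^ ℓ) (Additive.ofMul x) = -Additive.ofMul x :=
        congrArg (fun e : AddMonoid.End (Additive Q) => e (Additive.ofMul x)) h6
      rw [h8, add_neg_cancel]
  rw [AddMonoid.End.coe_pow] at h2
  have h7 : (d^[ℓ]) (Additive.ofMul x) = Additive.ofMul (D^[ℓ] x) := rfl
  rw [h7] at h2
  exact h2

theorem fin_of_nilp {Q : Type} [CommGroup Q] (A : Subgroup Q) (D : Q →* Q)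
    (hA : ∀ x ∈ A, D x ∈ A) (h1 : {x | x ∈ A ∧ D x = 1}.Finite) (n : ℕ)
    (hn : ∀ x ∈ A, D^[n] x = 1) : (A : Set Q).Finite := by
  have key : ∀ i : ℕ, {x | x ∈ A ∧ D^[i] x = 1}.Finite := by
    intro i
    induction i with
    | zero =>
      refine (Set.finite_singleton (1 : Q)).subset ?_
      rintro x ⟨_, h⟩
      exact h
    | succ i ih =>
      refine Set.Finite.of_finite_fibers D (ih.subset ?_) ?_
      · rintro _ ⟨x, ⟨hx, hx1⟩, rfl⟩
        refine ⟨hA x hx, ?_⟩
        rwa [Function.iterate_succ_apply] at hx1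
      · rintro _ ⟨x0, ⟨hx0, hx01⟩, rfl⟩
        refine (h1.image fun y => x0 * y).subset ?_
        rintro x ⟨⟨hx, _⟩, hx2⟩
        have hx2' : D x = D x0 := hx2
        refine ⟨x0⁻¹ * x, ⟨A.mul_mem (A.inv_mem hx0) hx, ?_⟩, ?_⟩
        · rw [map_mul, map_inv, hx2', inv_mul_cancel]
        · simp
  refine (key n).subset fun x hx => ⟨hx, hn x hx⟩

/-! ### Classes modulo `ℓ`-th powers -/

/-- units modulo `ℓ`-th powers -/
def QQ (ℓ : ℕ) (N : Type) [Field N] : Type := Nˣ ⧸ (powMonoidHom ℓ : Nˣ →* Nˣ).range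

instance (ℓ : ℕ) (N : Type) [Field N] : CommGroup (QQ ℓ N) :=
  inferInstanceAs (CommGroup (Nˣ ⧸ (powMonoidHom ℓ : Nˣ →* Nˣ).range))

/-- the class of a unit -/
def qq (ℓ : ℕ) (N : Type) [Field N] : Nˣ →* QQ ℓ N where
  toFun z := (QuotientGroup.mk z : Nˣ ⧸ (powMonoidHom ℓ : Nˣ →* Nˣ).range)
  map_one' := rfl
  map_mul' _ _ := rfl

theorem qq_surj {ℓ : ℕ} {N : Type} [Field N] (x : QQ ℓ N) : ∃ z, qq ℓ N z = x :=
  QuotientGroup.mk_surjective x

/-- functoriality -/
def qmap (ℓ : ℕ) {N M : Type} [Field N] [Field M] (f : Nˣ →* Mˣ) : QQ ℓ N →* QQ ℓ M where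
  toFun := QuotientGroup.map (powMonoidHom ℓ : Nˣ →* Nˣ).range (powMonoidHom ℓ : Mˣ →* Mˣ).range f
    (by
      rintro _ ⟨s, rfl⟩
      exact ⟨f s, (map_pow f s ℓ).symm⟩)
  map_one' := map_one _
  map_mul' := map_mul _

theorem qmap_qq {ℓ : ℕ} {N M : Type} [Field N] [Field M] (f : Nˣ →* Mˣ) (z : Nˣ) :
    qmap ℓ f (qq ℓ N z) = qq ℓ M (f z) := rfl

theorem qq_eq_iff {ℓ : ℕ} {N : Type} [Field N] {z z' : Nˣ} :
    qq ℓ N z = qq ℓ N z' ↔ ∃ s : Nˣ, z' = z * s ^ ℓ := by
  have h0 : qq ℓ N z = qq ℓ N z' ↔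
      QuotientGroup.mk' (powMonoidHom ℓ : Nˣ →* Nˣ).range z = QuotientGroup.mk' _ z' := Iff.rfl
  rw [h0, QuotientGroup.mk'_eq_mk']
  constructor
  · rintro ⟨_, ⟨s, rfl⟩, h⟩
    exact ⟨s, h.symm⟩
  · rintro ⟨s, h⟩
    exact ⟨s ^ ℓ, ⟨s, rfl⟩, h.symm⟩

theorem qq_pow {ℓ : ℕ} {N : Type} [Field N] (x : QQ ℓ N) : x ^ ℓ = 1 := by
  obtain ⟨z, rfl⟩ := qq_surj x
  have : qq ℓ N (z ^ ℓ) = qq ℓ N 1 := by
    rw [qq_eq_iff]
    refine ⟨z⁻¹, ?_⟩
    rw [inv_pow, mul_inv_cancel]
  rw [map_pow, map_one] at this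
  exact this

section places

variable {κ N : Type} [Field κ] [Field N] [Algebra κ N]

/-- the elements with orders divisible by `ℓ` outside `T` -/
def Au (ℓ : ℕ) (κ : Type) {N : Type} [Field κ] [Field N] [Algebra κ N] (T : Set (Place κ N)) :
    Subgroup Nˣ where
  carrier := {z | ∀ w : Place κ N, w ∉ T → (ℓ : ℤ) ∣ w.ord (z : N)}
  mul_mem' := by
    intro a b ha hb w hw
    rw [Units.val_mul, w.ord_mul a.ne_zero b.ne_zero]
    exact dvd_add (ha w hw) (hb w hw)
  one_mem' := by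
    intro w _
    rw [Units.val_one, w.ord_one]
    exact dvd_zero _
  inv_mem' := by
    intro a ha w hw
    rw [Units.val_inv_eq_inv_val, w.ord_inv]
    exact (dvd_neg).2 (ha w hw)

/-- finiteness of the classes -/
def FinA (ℓ : ℕ) (κ : Type) {N : Type} [Field κ] [Field N] [Algebra κ N] (T : Set (Place κ N)) :
    Prop := ((Au ℓ κ T).map (qq ℓ N) : Set (QQ ℓ N)).Finite

theorem ord_prod {ι : Type} (w : Place κ N) (s : Finset ι) (f : ι → N) (h : ∀ i ∈ s, f i ≠ 0) :
    w.ord (∏ i ∈ s, f i) = ∑ i ∈ s, w.ord (f i) := by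
  classical
  induction s using Finset.induction_on with
  | empty => rw [Finset.prod_empty, Finset.sum_empty, w.ord_one]
  | insert a s ha ih =>
    rw [Finset.prod_insert ha, Finset.sum_insert ha, w.ord_mul (h a (Finset.mem_insert_self _ _))
      (Finset.prod_ne_zero_iff.2 fun i hi => h i (Finset.mem_insert_of_mem hi)),
      ih fun i hi => h i (Finset.mem_insert_of_mem hi)]

/-- the place of a point -/
theorem exists_pt [CharZero κ] [IsFF κ N] {x : N} (hx : RatF κ x) (b : κ) :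
    ∃ w : Place κ N, w.ord (x - algebraMap κ N b) = 1 := by
  have ht : Transcendental κ (x - algebraMap κ N b) := by
    intro h
    apply hx.trans
    have h1 := h.add (isAlgebraic_algebraMap (A := N) b)
    rwa [sub_add_cancel] at h1
  obtain ⟨S, hS, hpos, hsum⟩ := zeros (k := κ) ht
  have htop : IntermediateField.adjoin κ {x - algebraMap κ N b} = ⊤ := by
    rw [eq_top_iff, ← hx.gen, IntermediateField.adjoin_le_iff, Set.singleton_subset_iff]
    have h1 : x - algebraMap κ N b ∈ IntermediateField.adjoin κ {x - algebraMap κ N b} :=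
      IntermediateField.mem_adjoin_simple_self κ _
    have h2 := add_mem h1 (IntermediateField.algebraMap_mem
      (IntermediateField.adjoin κ {x - algebraMap κ N b}) b)
    rwa [sub_add_cancel] at h2
  rw [htop, IntermediateField.finrank_top] at hsum
  have hne : S.Nonempty := by
    rw [Finset.nonempty_iff_ne_empty]
    rintro rfl
    simp at hsum
  obtain ⟨w, hw⟩ := hne
  refine ⟨w, ?_⟩
  have h1 : (w.ord (x - algebraMap κ N b)).toNat * w.deg ≤ 1 := by
    rw [← hsum]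
    exact Finset.single_le_sum (f := fun w => (w.ord (x - algebraMap κ N b)).toNat * w.deg)
      (fun _ _ => Nat.zero_le _) hw
  have h2 := (hS w).1 hw
  have h3 := hpos w hw
  have h4 : (w.ord (x - algebraMap κ N b)).toNat ≤ 1 :=
    (Nat.le_mul_of_pos_right _ h3).trans h1
  omega

/-- elements of `κ(x)` with orders divisible by `ℓ` are `ℓ`-th powers -/
theorem pow_of_dvd [IsAlgClosed κ] [CharZero κ] [IsFF κ N] {x : N} (hx : RatF κ x) {ℓ : ℕ}
    (hℓ : 0 < ℓ) {z : N} (hz : z ≠ 0) (h : ∀ w : Place κ N, (ℓ : ℤ) ∣ w.ord z) :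
    ∃ s : N, z = s ^ ℓ := by
  classical
  have hinj : Function.Injective (aeval x : κ[X] →ₐ[κ] N) :=
    transcendental_iff_injective.1 hx.trans
  have hmem : z ∈ IntermediateField.adjoin κ {x} := by rw [hx.gen]; trivial
  rw [IntermediateField.mem_adjoin_simple_iff] at hmem
  obtain ⟨p, q, rfl⟩ := hmem
  have hp0 : aeval x p ≠ 0 := fun h0 => hz (by rw [h0, zero_div])
  have hq0 : aeval x q ≠ 0 := fun h0 => hz (by rw [h0, div_zero])
  have hq : q ≠ 0 := by rintro rfl; exact hq0 (map_zero _)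
  have hp : p ≠ 0 := by rintro rfl; exact hp0 (map_zero _)
  set P : κ[X] := p * q ^ (ℓ - 1) with hP
  have hP0 : P ≠ 0 := mul_ne_zero hp (pow_ne_zero _ hq)
  have e1 : aeval x P = aeval x p / aeval x q * aeval x q ^ ℓ := by
    rw [hP, map_mul, map_pow]
    obtain ⟨m, rfl⟩ : ∃ m, ℓ = m + 1 := ⟨ℓ - 1, by omega⟩
    rw [Nat.add_sub_cancel, pow_succ]
    field_simp
  have hPx : aeval x P ≠ 0 := by
    rw [e1]
    exact mul_ne_zero hz (pow_ne_zero _ hq0)
  -- factorisation
  have hfac : P = C P.leadingCoeff * ∏ b ∈ P.roots.toFinset, (X - C b) ^ P.roots.count b := by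
    have h1 := (IsAlgClosed.splits P).eq_prod_roots
    rw [Finset.prod_multiset_map_count] at h1
    exact h1
  have hxa : ∀ b : κ, x - algebraMap κ N b ≠ 0 := by
    intro b h0
    apply hx.trans
    rw [sub_eq_zero] at h0
    rw [h0]
    exact isAlgebraic_algebraMap b
  have hlc : P.leadingCoeff ≠ 0 := leadingCoeff_ne_zero.2 hP0
  have e2 : aeval x P = algebraMap κ N P.leadingCoeff *
      ∏ b ∈ P.roots.toFinset, (x - algebraMap κ N b) ^ P.roots.count b := by
    conv_lhs => rw [hfac]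
    rw [map_mul, aeval_C, map_prod]
    congr 1
    refine Finset.prod_congr rfl fun b _ => ?_
    rw [map_pow, map_sub, aeval_X, aeval_C]
  have hcount : ∀ b : κ, ℓ ∣ P.roots.count b := by
    intro b
    by_cases hb : b ∈ P.roots.toFinset
    swap
    · rw [Multiset.mem_toFinset] at hb
      rw [Multiset.count_eq_zero_of_notMem hb]
      exact dvd_zero _
    obtain ⟨w, hw⟩ := exists_pt (κ := κ) hx b
    have h1 : w.ord (aeval x P) = P.roots.count b := by
      rw [e2, w.ord_mul (by simpa using hlc) (Finset.prod_ne_zero_iff.2 fun a _ =>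
        pow_ne_zero _ (hxa a)), w.ord_const hlc, ord_prod w _ _ fun a _ => pow_ne_zero _ (hxa a),
        zero_add, Finset.sum_eq_single b]
      · rw [w.ord_pow, hw, mul_one]
      · intro a _ hab
        have h2 : w.ord (x - algebraMap κ N a) = 0 := by
          have h3 : x - algebraMap κ N a = algebraMap κ N (b - a) + (x - algebraMap κ N b) := by
            rw [map_sub]; ring
          have h4 : b - a ≠ 0 := sub_ne_zero.2 (Ne.symm hab)
          have h5 : w.ord (algebraMap κ N (b - a)) = 0 := w.ord_const h4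
          have h6 : algebraMap κ N (b - a) ≠ 0 := (map_ne_zero_iff _ (algebraMap κ N).injective).2 h4
          rw [h3, (w.ord_add_eq h6 (hxa b) (by rw [h5, hw]; norm_num)).2, h5]
        rw [w.ord_pow, h2, mul_zero]
      · intro h
        exact absurd hb h
    have h2 : (ℓ : ℤ) ∣ w.ord (aeval x P) := by
      rw [e1, w.ord_mul hz (pow_ne_zero _ hq0), w.ord_pow]
      exact dvd_add (h w) (dvd_mul_right _ _)
    rw [h1] at h2
    exact_mod_cast h2
  obtain ⟨d, hd⟩ := IsAlgClosed.exists_pow_nat_eq P.leadingCoeff hℓ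
  set Q : N := algebraMap κ N d * ∏ b ∈ P.roots.toFinset,
    (x - algebraMap κ N b) ^ (P.roots.count b / ℓ) with hQ
  have e3 : aeval x P = Q ^ ℓ := by
    rw [e2, hQ, mul_pow, ← map_pow, hd, ← Finset.prod_pow]
    congr 1
    refine Finset.prod_congr rfl fun b _ => ?_
    rw [← pow_mul, Nat.div_mul_cancel (hcount b)]
  refine ⟨Q / aeval x q, ?_⟩
  rw [div_pow, ← e3, e1, mul_div_cancel_right₀ _ (pow_ne_zero _ hq0)]

theorem finA_base [IsAlgClosed κ] [CharZero κ] [IsFF κ N] {x : N} (hx : RatF κ x) {ℓ : ℕ}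
    (hℓ : 0 < ℓ) (T : Set (Place κ N)) (hT : T.Finite) : FinA ℓ κ T := by
  classical
  haveI : NeZero ℓ := ⟨hℓ.ne'⟩
  haveI := hT.to_subtype
  unfold FinA
  let rep : QQ ℓ N → Nˣ := fun y => if h : ∃ z ∈ Au ℓ κ T, qq ℓ N z = y then h.choose else 1
  have hrep : ∀ y ∈ (Au ℓ κ T).map (qq ℓ N), rep y ∈ Au ℓ κ T ∧ qq ℓ N (rep y) = y := by
    intro y hy
    have h : ∃ z ∈ Au ℓ κ T, qq ℓ N z = y := hy
    have e : rep y = h.choose := dif_pos h
    rw [e]
    exact h.choose_spec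
  let f : QQ ℓ N → (T → ZMod ℓ) := fun y w => ((w.1.ord (rep y : N) : ℤ) : ZMod ℓ)
  refine Set.Finite.of_finite_image (f := f) (Set.toFinite _) ?_
  intro y hy y' hy' h
  obtain ⟨h1, h2⟩ := hrep y hy
  obtain ⟨h1', h2'⟩ := hrep y' hy'
  have h3 : ∀ w : Place κ N, (ℓ : ℤ) ∣ w.ord (((rep y)⁻¹ * rep y' : Nˣ) : N) := by
    intro w
    rw [Units.val_mul, w.ord_mul (rep y)⁻¹.ne_zero (rep y').ne_zero, Units.val_inv_eq_inv_val,
      w.ord_inv]
    by_cases hw : w ∈ T
    · have h4 : ((w.ord (rep y : N) : ℤ) : ZMod ℓ) = ((w.ord (rep y' : N) : ℤ) : ZMod ℓ) :=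
        congrFun h ⟨w, hw⟩
      rw [ZMod.intCast_eq_intCast_iff_dvd_sub] at h4
      have e : -w.ord (rep y : N) + w.ord (rep y' : N) = w.ord (rep y' : N) - w.ord (rep y : N) := by
        ring
      rw [e]
      exact h4
    · exact dvd_add ((dvd_neg).2 (h1 w hw)) (h1' w hw)
  obtain ⟨s, hs⟩ := pow_of_dvd hx hℓ (((rep y)⁻¹ * rep y' : Nˣ)).ne_zero h3
  have hs0 : s ≠ 0 := by
    rintro rfl
    rw [zero_pow hℓ.ne'] at hs
    exact (((rep y)⁻¹ * rep y' : Nˣ)).ne_zero hs
  rw [← h2, ← h2', qq_eq_iff]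
  refine ⟨Units.mk0 s hs0, ?_⟩
  have h5 : (rep y)⁻¹ * rep y' = Units.mk0 s hs0 ^ ℓ := by
    ext
    rw [hs, Units.val_pow_eq_pow_val, Units.val_mk0]
  rw [← h5, mul_inv_cancel_left]

end places

end Pool.Agent.Y494.PS
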