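import Pool.Agent.Y494.PS.FinsA

/-!
# PS-FINS: finiteness of the `ℓ`-torsion, the induction step
-/

set_option autoImplicit false
set_option linter.all false

open Polynomial FF

namespace Pool.Agent.Y494.PS

open Pool.Agent.Y157.PS

section residue

variable {κ N : Type} [Field κ] [Field N] [Algebra κ N]

/-- the residue field is `κ` -/
theorem exists_const [IsAlgClosed κ] [CharZero κ] [IsFF κ N] (w : Place κ N) {t : N}
    (ht : w.ord t = 0) (htc : ∀ c : κ, t ≠ algebraMap κ N c) :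
    ∃ c : κ, 0 < w.ord (t - algebraMap κ N c) := by
  have hdeg := w.deg_pos
  haveI : FiniteDimensional κ w.RF := FiniteDimensional.of_finrank_pos hdeg
  have hreg : w.Reg t := Or.inr ht.ge
  obtain ⟨c, hc⟩ := (IsAlgClosed.algebraMap_bijective_of_isIntegral (k := κ) (K := w.RF)).2
    (w.red t)
  refine ⟨c, ?_⟩
  rw [Place.algebraMap_RF] at hc
  have h1 : w.red (t - algebraMap κ N c) = 0 := by
    rw [w.red_sub hreg (w.reg_const c), hc, sub_self]
  have h2 : w.Reg (t - algebraMap κ N c) := by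
    rw [sub_eq_add_neg]
    exact w.reg_add hreg (w.reg_neg (w.reg_const c))
  rcases (w.red_eq_zero_iff h2).1 h1 with h3 | h3
  · exact absurd (sub_eq_zero.1 h3) (htc c)
  · exact h3

end residue

theorem aux_comm {G : Type} [CommGroup G] (a b c d e : G) :
    (a * b)⁻¹ * (c * d) * e = a⁻¹ * c * (d / b * e) := by
  rw [mul_inv, div_eq_mul_inv, mul_comm d b⁻¹, mul_mul_mul_comm, mul_assoc (a⁻¹ * c)]

section step

variable {κ N₀ N : Type} [Field κ] [IsAlgClosed κ] [CharZero κ] [Field N₀] [Field N]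
  [Algebra κ N₀] [Algebra κ N] [Algebra N₀ N] [IsScalarTower κ N₀ N]

/-- the places over a place at which the Kummer generator is a unit are unramified -/
theorem exists_unram [FiniteDimensional N₀ N] [IsFF κ N] {ℓ : ℕ} (hℓ : 0 < ℓ)
    (hn : Module.finrank N₀ N = ℓ) (g : N ≃ₐ[N₀] N) {ζ : κ} (hζ : IsPrimitiveRoot ζ ℓ)
    {t : N} (ht : t ≠ 0) (hgt : g t = algebraMap κ N ζ * t) (hℓ1 : 1 < ℓ) {a : N₀}
    (ha : t ^ ℓ = algebraMap N₀ N a) (w₀ : Place κ N₀) (hw₀ : w₀.ord a = 0) :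
    ∃ w : Place κ N, ∀ f : N₀, w.ord (algebraMap N₀ N f) = w₀.ord f := by
  classical
  obtain ⟨S, T, hS, hT, hsum⟩ := exists_places_over (K' := N) w₀
  rw [hn] at hsum
  have hne : S.Nonempty := by
    rw [Finset.nonempty_iff_ne_empty]
    rintro rfl
    rw [Finset.sum_empty] at hsum
    omega
  obtain ⟨w, hw⟩ := hne
  obtain ⟨e, hov, hTw, hTpos⟩ := hT w hw
  have hgc : ∀ c : κ, g (algebraMap κ N c) = algebraMap κ N c := by
    intro c
    rw [IsScalarTower.algebraMap_apply κ N₀ N, g.commutes]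
  have hζN : ∀ m : ℕ, (algebraMap κ N ζ) ^ m = algebraMap κ N (ζ ^ m) := fun m => (map_pow _ _ _).symm
  have hgi : ∀ (i : ℕ) (c : κ), (g ^ i) (algebraMap κ N c) = algebraMap κ N c := by
    intro i c
    rw [IsScalarTower.algebraMap_apply κ N₀ N, (g ^ i).commutes]
  have hgit : ∀ i : ℕ, (g ^ i) t = algebraMap κ N (ζ ^ i) * t := by
    intro i
    induction i with
    | zero => simp
    | succ i ih =>
      rw [pow_succ', AlgEquiv.mul_apply, ih, map_mul, hgc, hgt, pow_succ, map_mul]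
      ring
  have hwt : w.ord t = 0 := by
    have h1 : w.ord (t ^ ℓ) = 0 := by rw [ha, hov.2, hw₀, mul_zero]
    rw [w.ord_pow] at h1
    have h2 : (ℓ : ℤ) ≠ 0 := by exact_mod_cast hℓ.ne'
    exact (mul_eq_zero.1 h1).resolve_left h2
  have htc : ∀ c : κ, t ≠ algebraMap κ N c := by
    intro c hc
    have h1 : g t = t := by rw [hc, hgc]
    rw [hgt] at h1
    have h2 : algebraMap κ N ζ = 1 := mul_right_cancel₀ ht (by rw [h1, one_mul])
    have h3 : ζ = 1 := (algebraMap κ N).injective (by rw [h2, map_one])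
    exact hζ.ne_one hℓ1 h3
  obtain ⟨c, hc⟩ := exists_const w hwt htc
  -- the conjugates of `w` are distinct
  have hcomp : ∀ i : ℕ, w.comp ((g ^ i).restrictScalars κ) ∈ S := by
    intro i
    refine hS _ e ⟨hov.1, fun f => ?_⟩
    rw [Place.comp_ord]
    have : ((g ^ i).restrictScalars κ) (algebraMap N₀ N f) = algebraMap N₀ N f := (g ^ i).commutes f
    rw [this]
    exact hov.2 f
  have hdist : ∀ i j : ℕ, i < j → j < ℓ →
      w.comp ((g ^ i).restrictScalars κ) ≠ w.comp ((g ^ j).restrictScalars κ) := by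
    intro i j hij hj heq
    obtain ⟨m, rfl⟩ : ∃ m, j = m + i := ⟨j - i, by omega⟩
    have hm0 : 0 < m := by omega
    set f : N := (g ^ i).symm (t - algebraMap κ N c) with hf
    have h1 := congrArg (fun v : Place κ N => v.ord f) heq
    simp only [Place.comp_ord] at h1
    have h2 : ((g ^ i).restrictScalars κ) f = t - algebraMap κ N c := by
      show (g ^ i) f = _
      rw [hf, AlgEquiv.apply_symm_apply]
    have h3 : ((g ^ (m + i)).restrictScalars κ) f =
        algebraMap κ N (ζ ^ m) * t - algebraMap κ N c := by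
      show (g ^ (m + i)) f = _
      rw [pow_add, AlgEquiv.mul_apply, hf, AlgEquiv.apply_symm_apply, map_sub, hgit, hgi]
    rw [h2, h3] at h1
    rw [h1] at hc
    have h4 : 0 < w.ord (t - algebraMap κ N c) := by rw [h1]; exact hc
    have hζm : ζ ^ m - 1 ≠ 0 := by
      rw [sub_ne_zero]
      exact hζ.pow_ne_one_of_pos_of_lt hm0.ne' (by omega)
    have h5 : algebraMap κ N (ζ ^ m - 1) * t =
        (algebraMap κ N (ζ ^ m) * t - algebraMap κ N c) + -(t - algebraMap κ N c) := by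
      rw [map_sub, map_one]; ring
    have h6 : w.ord (algebraMap κ N (ζ ^ m - 1) * t) = 0 := by
      rw [w.ord_mul ((map_ne_zero_iff _ (algebraMap κ N).injective).2 hζm) ht, w.ord_const hζm,
        hwt, add_zero]
    have h7 : algebraMap κ N (ζ ^ m) * t - algebraMap κ N c ≠ 0 := by
      intro h0; rw [h0, w.ord_zero] at hc; exact lt_irrefl _ hc
    have h8 : t - algebraMap κ N c ≠ 0 := by
      intro h0; rw [h0, w.ord_zero] at h4; exact lt_irrefl _ h4
    have h9 := w.ord_add h7 (neg_ne_zero.2 h8) (by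
      rw [← h5]
      exact mul_ne_zero ((map_ne_zero_iff _ (algebraMap κ N).injective).2 hζm) ht)
    rw [← h5, h6, w.ord_neg] at h9
    have := lt_min hc h4
    omega
  have hcard : ℓ ≤ S.card := by
    have h1 := Finset.card_le_card_of_injOn (s := Finset.range ℓ) (t := S)
      (fun i => w.comp ((g ^ i).restrictScalars κ)) (fun i _ => hcomp i) (by
        intro i hi j hj hij
        rw [Finset.coe_range, Set.mem_Iio] at hi hj
        rcases lt_trichotomy i j with h | h | h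
        · exact absurd hij (hdist i j h hj)
        · exact h
        · exact absurd hij.symm (hdist j i h hi))
    rwa [Finset.card_range] at h1
  have hTle : T w ≤ 1 := by
    by_contra hcon
    have h1 : S.card < ∑ v ∈ S, T v := by
      rw [Finset.card_eq_sum_ones]
      refine Finset.sum_lt_sum (fun v hv => ?_) ⟨w, hw, by omega⟩
      obtain ⟨_, _, _, h⟩ := hT v hv
      exact h
    omega
  refine ⟨w, fun f => ?_⟩
  have he : e = 1 := by
    have h1 : e * _ ≤ 1 := hTw ▸ hTle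
    have h2 : 0 < e * _ := hTw ▸ hTpos
    have h3 : e ∣ 1 := by
      have h4 : e * _ = 1 := le_antisymm h1 h2
      exact ⟨_, h4.symm⟩
    exact Nat.dvd_one.1 h3
  rw [hov.2, he, Nat.cast_one, one_mul]

/-- the induction step -/
theorem finA_step [FiniteDimensional N₀ N] [IsGalois N₀ N] [IsFF κ N₀] [IsFF κ N] {ℓ : ℕ}
    (hp : ℓ.Prime) (hn : Module.finrank N₀ N = ℓ)
    (h : ∀ T₀ : Set (Place κ N₀), T₀.Finite → FinA ℓ κ T₀) (T : Set (Place κ N))
    (hT : T.Finite) : FinA ℓ κ T := by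
  classical
  haveI : Fact ℓ.Prime := ⟨hp⟩
  have hcard : Nat.card (N ≃ₐ[N₀] N) = ℓ := by rw [IsGalois.card_aut_eq_finrank, hn]
  haveI : IsCyclic (N ≃ₐ[N₀] N) := isCyclic_of_prime_card hcard
  haveI : Finite (N ≃ₐ[N₀] N) := Nat.finite_of_card_ne_zero (by rw [hcard]; exact hp.ne_zero)
  obtain ⟨g, hg⟩ := IsCyclic.exists_generator (α := N ≃ₐ[N₀] N)
  have hgℓ : g ^ ℓ = 1 := by rw [← hcard]; exact pow_card_eq_one'
  haveI : NeZero (ℓ : κ) := ⟨by exact_mod_cast hp.ne_zero⟩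
  obtain ⟨ζ, hζ⟩ := HasEnoughRootsOfUnity.exists_primitiveRoot κ ℓ
  have hζ0 : ζ ≠ 0 := hζ.ne_zero hp.ne_zero
  -- elements fixed by `g`
  have hfix : ∀ z : N, g z = z → ∃ a : N₀, algebraMap N₀ N a = z := by
    intro z hz
    have h1 : ∀ f : N ≃ₐ[N₀] N, f z = z := by
      intro f
      obtain ⟨n, rfl⟩ := Subgroup.mem_zpowers_iff.1 (hg f)
      have h2 : g ∈ MulAction.stabilizer (N ≃ₐ[N₀] N) z := hz
      exact (Subgroup.zpow_mem _ h2 n : g ^ n ∈ MulAction.stabilizer (N ≃ₐ[N₀] N) z)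
    exact (IsGalois.mem_range_algebraMap_iff_fixed z).2 h1
  -- Kummer generator
  obtain ⟨t, ht0, hgt⟩ : ∃ t : N, t ≠ 0 ∧ g t = algebraMap κ N ζ * t := by
    have h1 : Algebra.norm N₀ (algebraMap N₀ N (algebraMap κ N₀ ζ⁻¹)) = 1 := by
      rw [Algebra.norm_algebraMap, hn, ← map_pow, inv_pow, hζ.pow_eq_one, inv_one, map_one]
    obtain ⟨y, hy⟩ := groupCohomology.exists_div_of_norm_eq_one hg h1
    refine ⟨y, y.ne_zero, ?_⟩
    have hgy : g (y : N) ≠ 0 := (map_ne_zero_iff _ g.injective).2 y.ne_zero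
    rw [← IsScalarTower.algebraMap_apply, map_inv₀, div_eq_iff hgy] at hy
    have h2 : algebraMap κ N ζ ≠ 0 := (map_ne_zero_iff _ (algebraMap κ N).injective).2 hζ0
    have h3 : algebraMap κ N ζ * (y : N) = g y := by
      conv_lhs => rw [hy]
      rw [mul_inv_cancel_left₀ h2]
    exact h3.symm
  obtain ⟨a, ha⟩ := hfix (t ^ ℓ) (by
    rw [map_pow, hgt, mul_pow, ← map_pow, hζ.pow_eq_one, map_one, one_mul])
  have ha0 : a ≠ 0 := by
    rintro rfl
    rw [map_zero] at ha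
    exact pow_ne_zero ℓ ht0 ha.symm
  -- stable set of places
  set T' : Set (Place κ N) := {w | ∃ f : N ≃ₐ[N₀] N, ∃ w₁ ∈ T, w = w₁.comp (f.restrictScalars κ)}
    with hT'
  have hT'fin : T'.Finite := by
    have h1 : T' = ⋃ f : N ≃ₐ[N₀] N, (fun w₁ : Place κ N => w₁.comp (f.restrictScalars κ)) '' T := by
      ext w
      rw [Set.mem_iUnion]
      constructor
      · rintro ⟨f, w₁, hw₁, rfl⟩
        exact ⟨f, w₁, hw₁, rfl⟩
      · rintro ⟨f, w₁, hw₁, rfl⟩
        exact ⟨f, w₁, hw₁, rfl⟩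
    rw [h1]
    exact Set.finite_iUnion fun f => hT.image _
  have hTT' : T ⊆ T' := by
    intro w hw
    refine ⟨1, w, hw, ?_⟩
    ext z
    rfl
  have hstab : ∀ w : Place κ N, w ∉ T' → w.comp (g.restrictScalars κ) ∉ T' := by
    rintro w hw ⟨f, w₁, hw₁, heq⟩
    refine hw ⟨f * g⁻¹, w₁, hw₁, ?_⟩
    ext z
    have h1 := congrArg (fun v : Place κ N => v.ord (g⁻¹ z)) heq
    simp only [Place.comp_ord] at h1
    have h2 : (g.restrictScalars κ) (g⁻¹ z) = z := by
      show g (g⁻¹ z) = z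
      rw [← AlgEquiv.mul_apply, mul_inv_cancel, AlgEquiv.one_apply]
    rw [h2] at h1
    rw [h1]
    rfl
  -- monotonicity
  suffices hmain : FinA ℓ κ T' by
    unfold FinA at hmain ⊢
    refine hmain.subset ?_
    have h1 : Au ℓ κ T ≤ Au ℓ κ T' := fun z hz w hw => hz w fun hwT => hw (hTT' hwT)
    exact Subgroup.map_mono h1
  -- places of `N₀`
  set T₀ : Set (Place κ N₀) := {w₀ | ¬ ∃ w : Place κ N, w ∉ T' ∧
    ∀ f : N₀, w.ord (algebraMap N₀ N f) = w₀.ord f} with hT₀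
  have hT₀fin : T₀.Finite := by
    have h1 : T₀ ⊆ {w₀ | w₀.ord a ≠ 0} ∪ ⋃ w ∈ T', {w₀ : Place κ N₀ |
        ∀ f : N₀, w.ord (algebraMap N₀ N f) = w₀.ord f} := by
      intro w₀ hw₀
      by_cases hwa : w₀.ord a = 0
      · right
        obtain ⟨w, hw⟩ := exists_unram hp.pos hn g hζ ht0 hgt hp.one_lt ha.symm w₀ hwa
        rw [Set.mem_iUnion₂]
        by_cases hwT : w ∈ T'
        · exact ⟨w, hwT, hw⟩
        · exact absurd ⟨w, hwT, hw⟩ hw₀
      · left
        exact hwa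
    refine ((finite_support a).union (Set.Finite.biUnion hT'fin fun w _ => ?_)).subset h1
    refine Set.Subsingleton.finite ?_
    intro w₀ hw₀ w₁ hw₁
    ext f
    rw [← hw₀ f, ← hw₁ f]
  have hfin₀ := h T₀ hT₀fin
  -- the maps
  have hU : ∀ z : Nˣ, ((Units.map (g : N →* N) z : Nˣ) : N) = g z := fun z => rfl
  set gU : Nˣ →* Nˣ := Units.map (g : N →* N) with hgU
  let γ : QQ ℓ N →* QQ ℓ N := qmap ℓ gU
  have hγ : ∀ z : Nˣ, γ (qq ℓ N z) = qq ℓ N (gU z) := fun z => rfl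
  let D : QQ ℓ N →* QQ ℓ N :=
    { toFun := fun x => γ x / x
      map_one' := by rw [map_one, div_one]
      map_mul' := fun x y => by rw [map_mul, mul_div_mul_comm] }
  have hD : ∀ x, D x = γ x / x := fun x => rfl
  let φ : QQ ℓ N₀ →* QQ ℓ N := qmap ℓ (Units.map (algebraMap N₀ N : N₀ →* N))
  have hφ : ∀ u : N₀ˣ, φ (qq ℓ N₀ u) = qq ℓ N (Units.map (algebraMap N₀ N : N₀ →* N) u) :=
    fun u => rfl
  have hAg : ∀ z ∈ Au ℓ κ T', gU z ∈ Au ℓ κ T' := by
    intro z hz w hw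
    exact hz (w.comp (g.restrictScalars κ)) (hstab w hw)
  have hγℓ : ∀ x, γ^[ℓ] x = x := by
    intro x
    obtain ⟨z, rfl⟩ := qq_surj x
    have h1 : ∀ n : ℕ, γ^[n] (qq ℓ N z) = qq ℓ N (gU^[n] z) := by
      intro n
      induction n with
      | zero => rfl
      | succ n ih => rw [Function.iterate_succ_apply', Function.iterate_succ_apply', ih, hγ]
    have h2 : ∀ n : ℕ, ((gU^[n] z : Nˣ) : N) = (g ^ n) z := by
      intro n
      induction n with
      | zero => rfl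
      | succ n ih =>
        rw [Function.iterate_succ_apply', pow_succ', AlgEquiv.mul_apply, ← ih]
        rfl
    have h3 : gU^[ℓ] z = z := by
      ext
      rw [h2, hgℓ, AlgEquiv.one_apply]
    rw [h1, h3]
  unfold FinA
  refine fin_of_nilp _ D ?_ ?_ ℓ fun x _ => nilp ℓ hp qq_pow γ hγℓ D hD x
  · rintro _ ⟨z, hz, rfl⟩
    rw [hD, hγ, ← _root_.map_div]
    exact ⟨gU z / z, (Au ℓ κ T').div_mem (hAg z hz) hz, rfl⟩
  -- the fixed classes
  have hrep : ∀ x : QQ ℓ N, (x ∈ (Au ℓ κ T').map (qq ℓ N) ∧ D x = 1) →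
      ∃ zv : Nˣ × Nˣ, zv.1 ∈ Au ℓ κ T' ∧ qq ℓ N zv.1 = x ∧ gU zv.1 = zv.1 * zv.2 ^ ℓ := by
    rintro _ ⟨⟨z, hz, rfl⟩, hx⟩
    rw [hD, hγ, div_eq_one] at hx
    obtain ⟨v, hv⟩ := qq_eq_iff.1 hx.symm
    exact ⟨(z, v), hz, rfl, hv⟩
  let rep : QQ ℓ N → Nˣ × Nˣ := fun x =>
    if hx : x ∈ (Au ℓ κ T').map (qq ℓ N) ∧ D x = 1 then (hrep x hx).choose else 1
  have hrep' : ∀ x : QQ ℓ N, (x ∈ (Au ℓ κ T').map (qq ℓ N) ∧ D x = 1) →
      (rep x).1 ∈ Au ℓ κ T' ∧ qq ℓ N (rep x).1 = x ∧ gU (rep x).1 = (rep x).1 * (rep x).2 ^ ℓ := by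
    intro x hx
    have e : rep x = (hrep x hx).choose := dif_pos hx
    rw [e]
    exact (hrep x hx).choose_spec
  let F : QQ ℓ N → N₀ := fun x => Algebra.norm N₀ ((rep x).2 : N)
  refine Set.Finite.of_finite_fibers F ?_ ?_
  · refine (Polynomial.nthRootsFinset ℓ (1 : N₀)).finite_toSet.subset ?_
    rintro _ ⟨x, hx, rfl⟩
    obtain ⟨h1, h2, h3⟩ := hrep' x hx
    rw [Finset.mem_coe, Polynomial.mem_nthRootsFinset hp.pos]
    have h4 : g ((rep x).1 : N) = ((rep x).1 : N) * ((rep x).2 : N) ^ ℓ := by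
      have := congrArg (Units.val) h3
      rw [Units.val_mul, Units.val_pow_eq_pow_val] at this
      exact this
    have h5 := congrArg (Algebra.norm N₀) h4
    rw [Algebra.norm_eq_of_algEquiv, map_mul, map_pow] at h5
    have h6 : Algebra.norm N₀ ((rep x).1 : N) ≠ 0 := Algebra.norm_ne_zero_iff.2 (rep x).1.ne_zero
    exact (mul_left_cancel₀ h6 (by rw [← h5, mul_one]))
  · rintro _ ⟨x₀, hx₀, rfl⟩
    obtain ⟨h1, h2, h3⟩ := hrep' x₀ hx₀
    refine ((hfin₀.image φ).image fun y => x₀ * y).subset ?_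
    rintro x ⟨hx, hxF⟩
    obtain ⟨h1', h2', h3'⟩ := hrep' x hx
    have hxF' : Algebra.norm N₀ ((rep x).2 : N) = Algebra.norm N₀ ((rep x₀).2 : N) := hxF
    have h6 : Algebra.norm N₀ ((rep x₀).2 : N) ≠ 0 := Algebra.norm_ne_zero_iff.2 (rep x₀).2.ne_zero
    have h7 : Algebra.norm N₀ (((rep x).2 : N) / ((rep x₀).2 : N)) = 1 := by
      rw [div_eq_mul_inv, map_mul, Algebra.norm_inv, hxF', mul_inv_cancel₀ h6]
    obtain ⟨y, hy⟩ := groupCohomology.exists_div_of_norm_eq_one hg h7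
    set z₁ : Nˣ := (rep x₀).1⁻¹ * (rep x).1 * y ^ ℓ with hz₁
    have hy' : (rep x).2 / (rep x₀).2 * gU y = y := by
      ext
      have hgy : g (y : N) ≠ 0 := (map_ne_zero_iff _ g.injective).2 y.ne_zero
      rw [Units.val_mul, Units.val_div_eq_div_val, ← hy]
      show (y : N) / g y * g y = y
      rw [div_mul_cancel₀ _ hgy]
    have hgz₁ : gU z₁ = z₁ := by
      rw [hz₁, map_mul, map_mul, map_inv, h3, h3', map_pow]
      conv_rhs => rw [← hy']
      rw [mul_pow, div_pow]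
      exact aux_comm _ _ _ _ _
    obtain ⟨u, hu⟩ := hfix z₁ (by
      have := congrArg (Units.val) hgz₁
      exact this)
    have hu0 : u ≠ 0 := by
      rintro rfl
      rw [map_zero] at hu
      exact z₁.ne_zero hu.symm
    have huz : Units.map (algebraMap N₀ N : N₀ →* N) (Units.mk0 u hu0) = z₁ := by
      ext
      exact hu
    have hz₁A : z₁ * (y ^ ℓ)⁻¹ ∈ Au ℓ κ T' := by
      rw [hz₁, mul_inv_cancel_right]
      exact mul_mem (inv_mem h1) h1'
    have huA : Units.mk0 u hu0 ∈ Au ℓ κ T₀ := by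
      intro w₀ hw₀
      rw [hT₀, Set.mem_setOf_eq, not_not] at hw₀
      obtain ⟨w, hwT, hw⟩ := hw₀
      rw [Units.val_mk0, ← hw, hu]
      have h8 := hz₁A w hwT
      rw [Units.val_mul, w.ord_mul z₁.ne_zero (y ^ ℓ)⁻¹.ne_zero, Units.val_inv_eq_inv_val,
        w.ord_inv, Units.val_pow_eq_pow_val, w.ord_pow] at h8
      have h9 : (ℓ : ℤ) ∣ (ℓ : ℤ) * w.ord (y : N) := dvd_mul_right _ _
      have := dvd_add h8 h9
      rwa [neg_add_cancel_right] at this
    refine ⟨φ (qq ℓ N₀ (Units.mk0 u hu0)), ⟨_, ⟨_, huA, rfl⟩, rfl⟩, ?_⟩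
    show x₀ * φ (qq ℓ N₀ (Units.mk0 u hu0)) = x
    rw [hφ, huz, ← h2, ← h2', ← map_mul, qq_eq_iff]
    refine ⟨y⁻¹, ?_⟩
    rw [hz₁, inv_pow]
    simp only [mul_assoc, mul_inv_cancel, mul_one, mul_inv_cancel_left]

end step

end Pool.Agent.Y494.PS
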